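import Pool.Agent.helper45.PV.SpecG

set_option autoImplicit false

open scoped Matrix Topology

namespace Pool.Agent.PV

open Pool.Agent.CZ

theorem S2S : S2S_stmt := by
  intro D _ _ χ hχ
  refine ⟨fun x => ?_, fun c hc => ?_, fun x => ?_, ?_, ?_, fun d => ?_⟩
  · rw [← vL_norm, vL_i2, v2_norm]
  · obtain ⟨z, hz⟩ := hc
    obtain ⟨c0, h0⟩ := vL_mem c
    obtain ⟨x, hx⟩ := v2_ex χ (vL D c) c0 z h0 (fun t => DFunLike.congr_fun hz t)
    exact ⟨x, vL_inj _ _ (by rw [vL_i2, hx])⟩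
  · refine ⟨e2 χ x, ?_⟩
    ext t
    exact L2_eq' χ x t
  · have h1 : Continuous (fun f : C(UnitAddCircle, D) => (⟨χ, hχ⟩ : C(D, ℂ)).comp f) :=
      ContinuousMap.continuous_postcomp _
    exact h1.comp vL_cont
  · refine vL_into _ ?_
    exact ContinuousMap.continuous_postcomp
      (⟨fun z => algebraMap ℂ D z, continuous_algebraMap ℂ D⟩ : C(ℂ, D))
  · ext t
    exact χ.commutes (d t)

end Pool.Agent.PV
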